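import Pool.Agent.H122Z.Noise

/-!
The periodic half space does not maximise Gaussian noise stability among periodic sets:
in dimension six with correlation two thirds a periodic set does strictly better.
-/

namespace Pool.Agent.Results.MP_9b0515_pr.AFalse

open Pool.Agent.H122Z.Noise

theorem result : ∃ Ω : Set (E 6), IsPeriodic Ω ∧
    stab (2 / 3) (halfSpace (fun _ : Fin 6 => (1 : ℝ))) < stab (2 / 3) Ω :=
  main

end Pool.Agent.Results.MP_9b0515_pr.AFalse
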